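import Pool.Agent.H10.Hopf

namespace Pool.Agent.Results.MP_f7162b_al.Counter
open Pool.Agent.H10.Hopf

/-- A torsion-free Hopfian abelian group that is not co-finitely injective. -/
theorem result : ∃ (G : Type) (_ : AddCommGroup G) (φ : G →+ G),
    (∀ (n : ℤ) (x : G), n ≠ 0 → n • x = 0 → x = 0) ∧
    (∀ θ : G →+ G, Function.Surjective θ → Function.Bijective θ) ∧
    Finite (G ⧸ φ.range) ∧ φ.ker ≠ ⊥ := by
  have := fin
  have s1 : s 1 = 0 := Polynomial.divX_one
  refine ⟨G, inferInstance, φ, fun n x hn h => Subtype.ext ?_, fun θ h => ⟨hopf θ h, h⟩,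
    inferInstance, fun h => ?_⟩
  · exact (smul_eq_zero_iff_right hn).1 (congrArg Subtype.val h)
  · have := (AddSubgroup.eq_bot_iff_forall _).1 h ⟨(0, 1), oneJ, zero_mem _, by simpa using oneJ,
      by simpa using oneJ, zero_mem _, oneJ, by simp [s1]⟩ (Subtype.ext (Prod.ext (map_zero s) s1))
    simp [Subtype.ext_iff] at this

end Pool.Agent.Results.MP_f7162b_al.Counter
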